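import Pool.Agent.H99.ADS.DSum

/-!
# The average of the singular series of prime pairs
-/

set_option autoImplicit false

namespace Pool.Agent.H46.PM

open Finset Pool.Agent.H99.ADS

/-- `j / φ(j)` as a product over the prime factors. -/
noncomputable def Gj (j : ℕ) : ℝ := ∏ q ∈ j.primeFactors, (1 - 1 / (q : ℝ))⁻¹

theorem ds_ind_dvd {j : ℕ} (hj : j ≠ 0) (Y : ℕ) : Ds (ind fun q => q ∣ j) Y ≤ Gj j := by
  have h1 : Ds (ind fun q => q ∣ j) Y =
      Ds (fun q => if q ∈ j.primeFactors then (fun _ => (1 : ℝ)) q else 0) Y := by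
    apply Ds_congr
    intro q hq _
    by_cases h : q ∣ j
    · rw [ind_of (T := fun q => q ∣ j) h, if_pos (Nat.mem_primeFactors.mpr ⟨hq, h, hj⟩)]
    · rw [ind_of_not (T := fun q => q ∣ j) h,
        if_neg (fun h' => h (Nat.dvd_of_mem_primeFactors h'))]
  rw [h1]
  refine Ds_le_prod (f := fun _ => (1 : ℝ)) (fun _ _ => zero_le_one) j.primeFactors
    (fun q hq => Nat.prime_of_mem_primeFactors hq) (fun q hq => ?_) Y
  exact_mod_cast (Nat.prime_of_mem_primeFactors hq).one_lt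

/-- `∏_{n=2}^{M} (1 - 1/n²)⁻¹ = 2M/(M+1)` for `M ≥ 1`. -/
theorem prod_Icc_inv (M : ℕ) (hM : 1 ≤ M) :
    ∏ n ∈ Icc 2 M, (1 - 1 / (n : ℝ) ^ 2)⁻¹ = 2 * (M : ℝ) / (M + 1) := by
  induction M, hM using Nat.le_induction with
  | base => norm_num
  | succ M hM ih =>
    have hM0 : (0 : ℝ) < M := by exact_mod_cast hM
    rw [← Finset.insert_Icc_right_eq_Icc_add_one (by omega), Finset.prod_insert (by simp), ih]
    push_cast
    have h1 : (1 : ℝ) - 1 / ((M : ℝ) + 1) ^ 2 = M * (M + 2) / (M + 1) ^ 2 := by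
      field_simp
      ring
    rw [h1, inv_div]
    field_simp
    ring

theorem one_le_fac {n : ℕ} (hn : 2 ≤ n) : 1 ≤ (1 - 1 / (n : ℝ) ^ 2)⁻¹ := by
  have h2 : (2 : ℝ) ≤ n := by exact_mod_cast hn
  have h3 : 1 / (n : ℝ) ^ 2 ≤ 1 / 4 := by
    apply one_div_le_one_div_of_le (by norm_num)
    nlinarith
  have h4 : 0 < 1 - 1 / (n : ℝ) ^ 2 := by linarith
  have h5 : 0 ≤ 1 / (n : ℝ) ^ 2 := by positivity
  exact (one_le_inv₀ h4).mpr (by linarith)

theorem prod_le_two (S : Finset ℕ) (hS : ∀ q ∈ S, 2 ≤ q) :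
    ∏ q ∈ S, (1 - 1 / (q : ℝ) ^ 2)⁻¹ ≤ 2 := by
  set M := S.sup id + 1 with hM
  have hsub : S ⊆ Icc 2 M := by
    intro q hq
    rw [mem_Icc]
    refine ⟨hS q hq, ?_⟩
    have : q ≤ S.sup id := Finset.le_sup (f := id) hq
    omega
  have h0 : 0 ≤ ∏ q ∈ S, (1 - 1 / (q : ℝ) ^ 2)⁻¹ :=
    Finset.prod_nonneg fun q hq => zero_le_one.trans (one_le_fac (hS q hq))
  have h1 : ∏ q ∈ S, (1 - 1 / (q : ℝ) ^ 2)⁻¹ ≤ ∏ q ∈ Icc 2 M, (1 - 1 / (q : ℝ) ^ 2)⁻¹ := by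
    rw [← Finset.prod_sdiff hsub]
    have h2 : (1 : ℝ) ≤ ∏ q ∈ Icc 2 M \ S, (1 - 1 / (q : ℝ) ^ 2)⁻¹ := by
      have h3 : ∏ q ∈ Icc 2 M \ S, (1 : ℝ) ≤ ∏ q ∈ Icc 2 M \ S, (1 - 1 / (q : ℝ) ^ 2)⁻¹ :=
        Finset.prod_le_prod (fun _ _ => zero_le_one) fun q hq =>
          one_le_fac (mem_Icc.mp (mem_sdiff.mp hq).1).1
      simpa using h3
    nlinarith
  refine h1.trans ?_
  rw [prod_Icc_inv M (by omega)]
  have hM0 : (0 : ℝ) < (M : ℝ) + 1 := by positivity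
  rw [div_le_iff₀ hM0]
  linarith

theorem Gj_le (j : ℕ) : Gj j ≤ 2 * ∏ q ∈ j.primeFactors, (1 + 1 / (q : ℝ)) := by
  have h1 : Gj j = (∏ q ∈ j.primeFactors, (1 - 1 / (q : ℝ) ^ 2)⁻¹) *
      ∏ q ∈ j.primeFactors, (1 + 1 / (q : ℝ)) := by
    unfold Gj
    rw [← Finset.prod_mul_distrib]
    refine Finset.prod_congr rfl fun q hq => ?_
    have hq2 : (2 : ℝ) ≤ q := by exact_mod_cast (Nat.prime_of_mem_primeFactors hq).two_le
    have h2 : (q : ℝ) - 1 ≠ 0 := by linarith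
    have h3 : (q : ℝ) + 1 ≠ 0 := by linarith
    have h4 : (q : ℝ) ≠ 0 := by linarith
    have h5 : 1 - 1 / (q : ℝ) = (q - 1) / q := by field_simp
    have h6 : 1 - 1 / (q : ℝ) ^ 2 = (q - 1) * (q + 1) / q ^ 2 := by field_simp; ring
    rw [h5, h6, inv_div, inv_div]
    field_simp
  rw [h1]
  refine mul_le_mul_of_nonneg_right (prod_le_two _ fun q hq =>
    (Nat.prime_of_mem_primeFactors hq).two_le) (Finset.prod_nonneg fun q _ => by positivity)

/-- The average of `Gj` is at most `4`. -/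
theorem sum_Gj (h : ℕ) : ∑ j ∈ Icc 1 h, Gj j ≤ 4 * h := by
  classical
  set Ph := (range (h + 1)).filter Nat.Prime with hPh
  have hpf : ∀ j ∈ Icc 1 h, j.primeFactors ⊆ Ph := by
    intro j hj q hq
    rw [mem_Icc] at hj
    have h1 := Nat.prime_of_mem_primeFactors hq
    have h2 := Nat.le_of_dvd (by omega) (Nat.dvd_of_mem_primeFactors hq)
    rw [hPh, mem_filter, mem_range]
    exact ⟨by omega, h1⟩
  -- expand the products
  have h1 : ∑ j ∈ Icc 1 h, ∏ q ∈ j.primeFactors, (1 + 1 / (q : ℝ)) =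
      ∑ j ∈ Icc 1 h, ∑ T ∈ Ph.powerset, if T ⊆ j.primeFactors then ∏ q ∈ T, 1 / (q : ℝ) else 0 := by
    refine Finset.sum_congr rfl fun j hj => ?_
    rw [Finset.prod_one_add, ← Finset.sum_filter]
    refine Finset.sum_congr ?_ fun _ _ => rfl
    ext T
    rw [mem_filter, mem_powerset, mem_powerset]
    exact ⟨fun hT => ⟨hT.trans (hpf j hj), hT⟩, fun hT => hT.2⟩
  have h2 : ∑ j ∈ Icc 1 h, ∏ q ∈ j.primeFactors, (1 + 1 / (q : ℝ)) ≤
      ∑ T ∈ Ph.powerset, (h : ℝ) * ∏ q ∈ T, 1 / (q : ℝ) ^ 2 := by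
    rw [h1, Finset.sum_comm]
    refine Finset.sum_le_sum fun T hT => ?_
    rw [mem_powerset] at hT
    have hTp : ∀ q ∈ T, q.Prime := fun q hq => (mem_filter.mp (hT hq)).2
    rw [← Finset.sum_filter, Finset.sum_const, nsmul_eq_mul]
    have hP0 : 0 < ∏ q ∈ T, q := Finset.prod_pos fun q hq => (hTp q hq).pos
    have h3 : ((Icc 1 h).filter fun j => T ⊆ j.primeFactors).card ≤ h / ∏ q ∈ T, q := by
      have h4 : ((Icc 1 h).filter fun j => T ⊆ j.primeFactors) ⊆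
          (Ioc 0 h).filter fun j => (∏ q ∈ T, q) ∣ j := by
        intro j hj
        rw [mem_filter, mem_Icc] at hj
        rw [mem_filter, mem_Ioc]
        refine ⟨⟨by omega, hj.1.2⟩, ?_⟩
        exact Finset.prod_primes_dvd j (fun q hq => (hTp q hq).prime)
          fun q hq => Nat.dvd_of_mem_primeFactors (hj.2 hq)
      refine (Finset.card_le_card h4).trans (le_of_eq ?_)
      exact Nat.Ioc_filter_dvd_card_eq_div h _
    have h5 : ((((Icc 1 h).filter fun j => T ⊆ j.primeFactors).card : ℕ) : ℝ) ≤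
        (h : ℝ) / ∏ q ∈ T, (q : ℝ) := by
      have h6 : ((h / ∏ q ∈ T, q : ℕ) : ℝ) ≤ (h : ℝ) / ((∏ q ∈ T, q : ℕ) : ℝ) := Nat.cast_div_le
      rw [Nat.cast_prod] at h6
      exact (Nat.cast_le.mpr h3).trans h6
    have h7 : 0 ≤ ∏ q ∈ T, 1 / (q : ℝ) := Finset.prod_nonneg fun q _ => by positivity
    refine (mul_le_mul_of_nonneg_right h5 h7).trans (le_of_eq ?_)
    rw [Finset.prod_div_distrib, Finset.prod_div_distrib, Finset.prod_pow]
    simp only [Finset.prod_const_one]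
    have h8 : ∏ q ∈ T, (q : ℝ) ≠ 0 :=
      Finset.prod_ne_zero_iff.mpr fun q hq => by exact_mod_cast (hTp q hq).ne_zero
    field_simp
  have h3 : ∑ T ∈ Ph.powerset, (h : ℝ) * ∏ q ∈ T, 1 / (q : ℝ) ^ 2 =
      h * ∏ q ∈ Ph, (1 + 1 / (q : ℝ) ^ 2) := by
    rw [Finset.prod_one_add, Finset.mul_sum]
  have h4 : ∏ q ∈ Ph, (1 + 1 / (q : ℝ) ^ 2) ≤ 2 := by
    refine (Finset.prod_le_prod (fun q _ => by positivity) fun q hq => ?_).trans
      (prod_le_two Ph fun q hq => (mem_filter.mp hq).2.two_le)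
    have hq2 : (2 : ℝ) ≤ q := by exact_mod_cast (mem_filter.mp hq).2.two_le
    have h5 : 1 / (q : ℝ) ^ 2 ≤ 1 / 4 := by
      apply one_div_le_one_div_of_le (by norm_num)
      nlinarith
    have h6 : 0 < 1 - 1 / (q : ℝ) ^ 2 := by linarith
    have h7 : 0 ≤ 1 / (q : ℝ) ^ 2 := by positivity
    rw [← one_div, le_div_iff₀ h6]
    nlinarith
  have hh : (0 : ℝ) ≤ h := Nat.cast_nonneg h
  calc ∑ j ∈ Icc 1 h, Gj j ≤ ∑ j ∈ Icc 1 h, 2 * ∏ q ∈ j.primeFactors, (1 + 1 / (q : ℝ)) :=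
        Finset.sum_le_sum fun j _ => Gj_le j
    _ = 2 * ∑ j ∈ Icc 1 h, ∏ q ∈ j.primeFactors, (1 + 1 / (q : ℝ)) := by rw [Finset.mul_sum]
    _ ≤ 2 * (h * 2) := by
        rw [h3] at h2
        have := h2.trans (mul_le_mul_of_nonneg_left h4 hh)
        linarith
    _ = 4 * h := by ring

end Pool.Agent.H46.PM
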